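import Pool.Agent.Helper62K3.FD

/-!
# The space `F_4(C ⊕ D)` is a `k`-space and a `k_R`-space

Problem MP_c880a5_gt, Q1 (answer: yes).

Let `C` be a compact zero-dimensional Hausdorff space and `D` a discrete space of any cardinality. We show
that the space `F_4(C ⊕ D)` of the words of length at most four in the free topological group is a
`k`-space, hence a `k_R`-space, and a Fréchet-Urysohn space if `C` is first countable.

Proof. Let `g` be in the closure of a set `A` of words of length at most four. The homomorphism to the
free group on `D` and one more letter which identifies all points of `C` is locally constant. A reduced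
word of length at most four with a letter `d` of `D` that disappears under this homomorphism has the form
`d^s b^e c^(-e) d^(-s)` with `b`, `c` in `C`. If `g ≠ 1` then the homomorphism which identifies all letters
of `D` outside `g` shows that near `g` all words of length at most four have their letters in `C` and in a finite
set. If `g = 1` and `1` is not in the closure of the words of `A` over `C` and one letter `d`, for every
`d`, then there is for every `d` a clopen partition of `C` such that no word of `A` is of the above form with
`b`, `c` in the same class; and these partitions define an action of the free group by involutions of a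
discrete set, with continuous orbit maps, for which the stabiliser of one point meets the words
`d^s b^e c^(-e) d^(-s)` only for `b`, `c` in the same class of the partition of `d`, for all `d` at once.
-/

set_option autoImplicit false

open Topology Set

namespace Pool.Agent.Results.MP_c880a5_gt.SumWithDiscrete

open Pool.Agent.Helper62K3

/-- For every compact totally disconnected Hausdorff space `C` and every discrete space `D` the space
`F_4(C ⊕ D)` is Tychonoff, each point of the closure of a set is in the closure of its intersection with
some compact set, it is a `k`-space and a `k_R`-space, and it is a Fréchet-Urysohn space if `C` is first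
countable. In particular this holds if `C` is a convergent sequence with its limit. -/
theorem result :
    (∀ (C D : Type) [TopologicalSpace C] [CompactSpace C] [T2Space C] [TotallyDisconnectedSpace C]
      [TopologicalSpace D] [DiscreteTopology D],
      T35Space (Fn (C ⊕ D) 4) ∧ StronglyK (Fn (C ⊕ D) 4) ∧ CompactlyCoherentSpace (Fn (C ⊕ D) 4) ∧
        IsKR (Fn (C ⊕ D) 4) ∧ (FirstCountableTopology C → FrechetUrysohnSpace (Fn (C ⊕ D) 4))) ∧
    ∀ (C D : Type) [TopologicalSpace C] [TopologicalSpace D] [DiscreteTopology D],
      Nonempty (C ≃ₜ Seq) → T35Space (Fn (C ⊕ D) 4) ∧ IsKR (Fn (C ⊕ D) 4) ∧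
        FrechetUrysohnSpace (Fn (C ⊕ D) 4) := by
  have h1 : ∀ (C D : Type) [TopologicalSpace C] [CompactSpace C] [T2Space C]
      [TotallyDisconnectedSpace C] [TopologicalSpace D] [DiscreteTopology D],
      T35Space (Fn (C ⊕ D) 4) ∧ StronglyK (Fn (C ⊕ D) 4) ∧ CompactlyCoherentSpace (Fn (C ⊕ D) 4) ∧
        IsKR (Fn (C ⊕ D) 4) ∧
        (FirstCountableTopology C → FrechetUrysohnSpace (Fn (C ⊕ D) 4)) := by
    intro C D _ _ _ _ _ _
    have h2 : StronglyK (Fn (C ⊕ D) 4) := stronglyK
    have h3 : T35Space (Pool.Agent.R816.FTG.FTG (C ⊕ D)) := t35
    exact ⟨inferInstance, h2, coherent_of h2, isKR_of h2, fun _ => frechet⟩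
  refine ⟨h1, ?_⟩
  rintro C D _ _ _ ⟨e⟩
  have i1 : CompactSpace C := e.symm.compactSpace
  have i2 : T2Space C := e.isEmbedding.t2Space
  have i3 : TotallyDisconnectedSpace C :=
    ⟨e.isEmbedding.isTotallyDisconnected (isTotallyDisconnected_of_totallyDisconnectedSpace _)⟩
  have i4 : FirstCountableTopology C := e.isInducing.firstCountableTopology
  obtain ⟨h2, -, -, h3, h4⟩ := h1 C D
  exact ⟨h2, h3, h4 i4⟩

end Pool.Agent.Results.MP_c880a5_gt.SumWithDiscrete
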